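import Mathlib

/-!
# Project BB: multi-point blow-up for the bad Boussinesq equation

`u_tt = u_xx + (u²)_xx + u_xxxx`, `τ = T - t`. The solution is `U(x,τ) = Re ∫ w(ξ,τ) exp(i x ξ) dξ`, where `w`
solves `w_ττ = mu w - ξ² (w*w)`, `mu = ξ⁴ - ξ²`, through the fixed point equation
`w = w0 + ∫_0^T kap(ξ,τ,s) (w*w)(ξ,s) ds`. The profile `w0` is `2 ε (1-chi) exp(-lam τ) cos ξ |ξ|⁻¹ (iξ)^(-p)`; the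
derivative `∂_x^p U` is unbounded at `x = ±1` as `τ → 0`, lower derivatives are bounded. (`p = 0`: `U` itself.)

Every part is a `Prop`; a job proves `S_xx`, possibly from some other `S_yy` named in the job.
-/

set_option autoImplicit false

open MeasureTheory Filter Topology Set

namespace Pool.Agent.Q82.BB

/-! ### Definitions -/

noncomputable def bump : ContDiffBump (0 : ℝ) := ⟨2, 3, by norm_num, by norm_num⟩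

/-- A smooth even cut-off: `1` on `[-2,2]`, `0` outside of `(-3,3)`, values in `[0,1]`. -/
noncomputable def chi (ξ : ℝ) : ℝ := bump ξ

noncomputable def mu (ξ : ℝ) : ℝ := ξ ^ 4 - ξ ^ 2

noncomputable def lam (ξ : ℝ) : ℝ := Real.sqrt (mu ξ)

/-- `sh m r = sinh (√m r)/√m`, `ch m r = cosh (√m r)`, entire functions of `m`. -/
def IsSh (sh ch : ℝ → ℝ → ℝ) : Prop :=
  (∀ n : ℕ, ContDiff ℝ n (fun q : ℝ × ℝ => sh q.1 q.2)) ∧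
  (∀ n : ℕ, ContDiff ℝ n (fun q : ℝ × ℝ => ch q.1 q.2)) ∧ (∀ m, sh m 0 = 0) ∧ (∀ m, ch m 0 = 1) ∧
  (∀ m r, HasDerivAt (sh m) (ch m r) r) ∧ (∀ m r, HasDerivAt (ch m) (m * sh m r) r) ∧
  (∀ m r s, sh m (r - s) = sh m r * ch m s - ch m r * sh m s) ∧
  ∀ m r s, ch m (r - s) = ch m r * ch m s - m * sh m r * sh m s

/-- The kernel, multiplied by `ξ²`. -/
noncomputable def kap (sh : ℝ → ℝ → ℝ) (ξ τ s : ℝ) : ℝ :=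
  ξ ^ 2 * ((1 - chi ξ) * Real.exp (-(lam ξ * |τ - s|)) / (2 * lam ξ) -
    chi ξ * sh (mu ξ) (max (τ - s) 0))

/-- Properties of the kernel which are used for the fixed point. -/
def KBd (T : ℝ) (κ : ℝ → ℝ → ℝ → ℝ) : Prop :=
  (∀ τ s : ℝ, ∀ n : ℕ, ContDiff ℝ n (fun ξ => κ ξ τ s)) ∧
  (∀ i : ℕ, Continuous (fun q : ℝ × ℝ × ℝ => iteratedDeriv i (fun ξ => κ ξ q.2.1 q.2.2) q.1)) ∧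
  (∀ ξ τ s, κ (-ξ) τ s = κ ξ τ s) ∧
  ∀ i : ℕ, ∃ C : ℝ, 0 < C ∧ ∀ ξ : ℝ, ∀ τ ∈ Icc 0 T, ∀ s ∈ Icc 0 T,
    |iteratedDeriv i (fun ξ => κ ξ τ s) ξ| ≤ C * Real.exp (-(ξ ^ 2 * |τ - s| / 4))

noncomputable def ex (ξ τ : ℝ) : ℝ := Real.exp (-(τ * |ξ| / 16))

/-- Smooth in `ξ`, all `ξ`-derivatives jointly continuous, with exponential-polynomial bounds. -/
def Adm (T : ℝ) (p : ℕ) (w : ℝ → ℝ → ℂ) (Cs : ℕ → ℝ) : Prop :=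
  (∀ τ ∈ Icc 0 T, ∀ n : ℕ, ContDiff ℝ n (fun ξ => w ξ τ)) ∧
  (∀ i : ℕ, ContinuousOn (fun q : ℝ × ℝ => iteratedDeriv i (fun ξ => w ξ q.2) q.1)
    (univ ×ˢ Icc 0 T)) ∧
  (∀ i : ℕ, 0 ≤ Cs i) ∧
  ∀ i : ℕ, ∀ ξ : ℝ, ∀ τ ∈ Icc 0 T,
    ‖iteratedDeriv i (fun ξ => w ξ τ) ξ‖ ≤ Cs i * (ex ξ τ / (1 + |ξ|) ^ (p + 1))

/-- The linear part. -/
noncomputable def w0 (p : ℕ) (ε : ℝ) (ξ τ : ℝ) : ℂ :=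
  ((2 * ε * (1 - chi ξ) * Real.exp (-(lam ξ * τ)) * Real.cos ξ / |ξ| : ℝ) : ℂ) *
    ((Complex.I * ξ) ^ p)⁻¹

/-- Convolution at time `τ`. -/
noncomputable def cv (w v : ℝ → ℝ → ℂ) (ξ τ : ℝ) : ℂ := ∫ η, w η τ * v (ξ - η) τ

/-- The nonlinear part. -/
noncomputable def Nl (T : ℝ) (κ : ℝ → ℝ → ℝ → ℝ) (w : ℝ → ℝ → ℂ) (ξ τ : ℝ) : ℂ :=
  ∫ s in (0 : ℝ)..T, (κ ξ τ s : ℂ) * cv w w ξ s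

/-- Continuous, and exponentially decaying locally uniformly for `0 < τ < T`. -/
def Good (T : ℝ) (G : ℝ → ℝ → ℂ) : Prop :=
  ContinuousOn (fun q : ℝ × ℝ => G q.1 q.2) (univ ×ˢ Ioo 0 T) ∧
  ∀ a b : ℝ, 0 < a → b < T → ∃ c C : ℝ, 0 < c ∧ ∀ ξ : ℝ, ∀ τ ∈ Icc a b,
    ‖G ξ τ‖ ≤ C * Real.exp (-(c * |ξ|))

/-- `∂_x^i ∂_τ^j U` in terms of `W j = ∂_τ^j w`. -/
noncomputable def UU (W : ℕ → ℝ → ℝ → ℂ) (i j : ℕ) (x τ : ℝ) : ℝ :=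
  (∫ ξ : ℝ, (Complex.I * ξ) ^ i * W j ξ τ * Complex.exp (Complex.I * x * ξ)).re

/-- `W j` are the successive `τ`-derivatives of a solution of `w_ττ = mu w - ξ² (w*w)`. -/
def Tower (T : ℝ) (W : ℕ → ℝ → ℝ → ℂ) : Prop :=
  (∀ j, Good T (W j)) ∧
  (∀ j : ℕ, ∀ ξ : ℝ, ∀ τ ∈ Ioo 0 T, HasDerivAt (fun τ => W j ξ τ) (W (j + 1) ξ τ) τ) ∧
  ∀ j : ℕ, ∀ ξ τ : ℝ, W (j + 2) ξ τ = (mu ξ : ℂ) * W j ξ τ -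
    (ξ : ℂ) ^ 2 * ∑ i ∈ Finset.range (j + 1), (j.choose i : ℂ) * cv (W i) (W (j - i)) ξ τ

/-! ### The kernel and the linear part -/

/-- Proof: let `A m : ℝ × ℝ →L[ℝ] ℝ × ℝ`, `A m (a,b) = (b, m a)` and `P (m,r) = NormedSpace.exp (r • A m)`
(smooth in `(m,r)`; `P (m,r) P (m,s) = P (m,r+s)`; derivative in `r` is `A m * P (m,r)`); `sh m r` is the
first component of `P (m,r) (0,1)`, `ch m r` the second component of `P (m,r) (0,1)`. (Then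
`P (m,r) (1,0) = (ch, m sh)` as it solves the same equation.) Or by the power series. -/
def S_SH : Prop := ∃ sh ch : ℝ → ℝ → ℝ, IsSh sh ch

/-- The kernel is admissible. `1 - chi` vanishes on `[-2,2]`, for `|ξ| ≥ 2` the function `lam` is smooth with
`|∂^i lam| ≤ C_i |ξ|^(2-i)` (e.g. `lam ξ = |ξ| √(ξ²-1)`; each derivative is `O((1+|ξ|)²)`, which is not quite
enough; write `∂^i exp(-lam r) = (polynomial in r ∂lam, r ∂²lam, ...) exp(-lam r)` with `|∂^i lam| ≤ C_i |ξ|` for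
`i ≥ 1` and `|ξ| ≤ lam`, `(r lam)^i exp(-r lam/4) ≤ C`), `lam ≥ (4/5) ξ²`. The low part has compact support
in `ξ` and is smooth in `(ξ, r)`, `r = max (τ-s) 0`, so its derivatives are bounded by
`C ≤ C e^(9T/4) exp(-(ξ²|τ-s|/4))`. -/
def S_KB : Prop := ∀ sh ch : ℝ → ℝ → ℝ, IsSh sh ch → ∀ T : ℝ, 0 < T → KBd T (kap sh)

/-- The linear part is admissible, with constants proportional to `ε`; same estimates as in `S_KB`. -/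
def S_W0 : Prop := ∀ (T : ℝ) (p : ℕ), 0 < T → ∃ Cs : ℕ → ℝ, ∀ ε : ℝ, 0 < ε →
  Adm T p (w0 p ε) (fun i => ε * Cs i) ∧ ∀ ξ τ : ℝ, w0 p ε (-ξ) τ = (starRingEnd ℂ) (w0 p ε ξ τ)

/-! ### The nonlinear part -/

/-- Convolution. Proof: `ex η τ * ex (ξ-η) τ ≤ ex ξ τ`; `(1+|ξ|)^p ≤ 2^p ((1+|η|)^p + (1+|ξ-η|)^p)`;
`(1+|η|)⁻¹ (1+|ξ-η|)^(-p-1) ≤ (1+|η|)⁻² + (1+|ξ-η|)⁻²`, integral at most `4`. -/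
def S_CVB : Prop := ∀ p : ℕ, ∃ K : ℝ, 0 < K ∧ ∀ (f g : ℝ → ℂ) (A B τ : ℝ), 0 ≤ τ → 0 ≤ A → 0 ≤ B →
  Continuous f → Continuous g → (∀ ξ, ‖f ξ‖ ≤ A * (ex ξ τ / (1 + |ξ|) ^ (p + 1))) →
  (∀ ξ, ‖g ξ‖ ≤ B * (ex ξ τ / (1 + |ξ|) ^ (p + 1))) → ∀ ξ, Integrable (fun η => f η * g (ξ - η)) ∧
    ‖∫ η, f η * g (ξ - η)‖ ≤ K * A * B * (ex ξ τ / (1 + |ξ|) ^ p)

/-- Derivatives of the convolution: differentiation under the integral (dominated by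
`C (1+|η|)^(-p-1) (1+|ξ-η|)^(-p-1)`, which for `|ξ| ≤ R` is at most `C' (1+|η|)⁻²`). -/
def S_CVD : Prop := ∀ (T : ℝ) (p : ℕ) (w : ℝ → ℝ → ℂ) (Cs : ℕ → ℝ), 0 < T → Adm T p w Cs →
  (∀ τ ∈ Icc 0 T, ∀ n : ℕ, ContDiff ℝ n (fun ξ => cv w w ξ τ)) ∧
  (∀ i : ℕ, ∀ τ ∈ Icc 0 T, ∀ ξ : ℝ, iteratedDeriv i (fun ξ => cv w w ξ τ) ξ =
    ∫ η, w η τ * iteratedDeriv i (fun ξ => w ξ τ) (ξ - η)) ∧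
  ∀ i : ℕ, ContinuousOn (fun q : ℝ × ℝ => iteratedDeriv i (fun ξ => cv w w ξ q.2) q.1)
    (univ ×ˢ Icc 0 T)

/-- Time integral. For `|ξ| ≤ 1` it is at most `T`. For `|ξ| ≥ 1` and `s ≤ τ`:
`ξ²(τ-s)/4 + s|ξ|/16 ≥ τ|ξ|/16 + (3/16) ξ² (τ-s)`; for `s ≥ τ`: `ex ξ s ≤ ex ξ τ`. Total
`≤ ex ξ τ (16/3 + 4)/ξ²`. -/
def S_TI : Prop := ∀ T : ℝ, 0 < T → ∃ K : ℝ, 0 < K ∧ ∀ ξ : ℝ, ∀ τ ∈ Icc 0 T,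
  ∫ s in (0 : ℝ)..T, Real.exp (-(ξ ^ 2 * |τ - s| / 4)) * ex ξ s ≤ K * (ex ξ τ / (1 + |ξ|) ^ 2)

/-- The nonlinear part is admissible; the constant `K0` in front of the top derivative does not depend
on `i`. From `S_CVB`, `S_CVD`, `S_TI`: differentiation under the integral over `s`, the product rule
(`iteratedDeriv_mul` or `norm_iteratedFDeriv_mul_le`), `‖∂^j (w*w)‖ ≤ K Cs 0 Cs j (ex/(1+|ξ|)^p)`. -/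
def S_NB : Prop := ∀ (T : ℝ) (p : ℕ) (κ : ℝ → ℝ → ℝ → ℝ), 0 < T → KBd T κ →
  ∃ (K0 : ℝ) (K1 : ℕ → ℝ), 0 < K0 ∧ (∀ i, 0 ≤ K1 i) ∧ ∀ (w : ℝ → ℝ → ℂ) (Cs : ℕ → ℝ), Adm T p w Cs →
  (∀ τ ∈ Icc 0 T, ∀ n : ℕ, ContDiff ℝ n (fun ξ => Nl T κ w ξ τ)) ∧
  (∀ i : ℕ, ContinuousOn (fun q : ℝ × ℝ => iteratedDeriv i (fun ξ => Nl T κ w ξ q.2) q.1)
    (univ ×ˢ Icc 0 T)) ∧
  ∀ i : ℕ, ∀ ξ : ℝ, ∀ τ ∈ Icc 0 T, ‖iteratedDeriv i (fun ξ => Nl T κ w ξ τ) ξ‖ ≤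
    Cs 0 * (K0 * Cs i + K1 i * ∑ j ∈ Finset.range i, Cs j) * (ex ξ τ / (1 + |ξ|) ^ (p + 2))

/-- The Lipschitz property. From `S_CVB`, `S_TI`: `w*w - v*v = w*(w-v) + (w-v)*v`. -/
def S_NL : Prop := ∀ (T : ℝ) (p : ℕ) (κ : ℝ → ℝ → ℝ → ℝ), 0 < T → KBd T κ → ∃ K0 : ℝ, 0 < K0 ∧
  ∀ (w v : ℝ → ℝ → ℂ) (Cs Ds : ℕ → ℝ) (D : ℝ), 0 ≤ D → Adm T p w Cs → Adm T p v Ds →
  (∀ ξ : ℝ, ∀ τ ∈ Icc 0 T, ‖w ξ τ - v ξ τ‖ ≤ D * (ex ξ τ / (1 + |ξ|) ^ (p + 1))) →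
  ∀ ξ : ℝ, ∀ τ ∈ Icc 0 T, ‖Nl T κ w ξ τ - Nl T κ v ξ τ‖ ≤
    K0 * (Cs 0 + Ds 0) * D * (ex ξ τ / (1 + |ξ|) ^ (p + 2))

/-- Limits of sequences with bounded derivatives. Proof: interpolation `sup |f'| ≤ 2 √(sup |f| sup |f''|)`
(Taylor with step `h`, choose `h`; bounded functions on `ℝ`) shows by induction on `i` that
`‖∂^i (w (n+1) - w n)‖ ≤ C_i r_i^n` with `r_i < 1`; hence all derivatives converge uniformly on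
`ℝ × [0,T]`, `hasDerivAt_of_tendstoUniformly`. -/
def S_LIM : Prop := ∀ (T : ℝ) (w : ℕ → ℝ → ℝ → ℂ), 0 < T →
  (∀ n, ∀ τ ∈ Icc 0 T, ∀ m : ℕ, ContDiff ℝ m (fun ξ => w n ξ τ)) →
  (∀ n i : ℕ, ContinuousOn (fun q : ℝ × ℝ => iteratedDeriv i (fun ξ => w n ξ q.2) q.1)
    (univ ×ˢ Icc 0 T)) →
  (∀ i : ℕ, ∃ C : ℝ, ∀ n : ℕ, ∀ ξ : ℝ, ∀ τ ∈ Icc 0 T, ‖iteratedDeriv i (fun ξ => w n ξ τ) ξ‖ ≤ C) →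
  (∃ r C : ℝ, 0 < r ∧ r < 1 ∧ ∀ n : ℕ, ∀ ξ : ℝ, ∀ τ ∈ Icc 0 T,
    ‖w (n + 1) ξ τ - w n ξ τ‖ ≤ C * r ^ n) →
  ∃ v : ℝ → ℝ → ℂ, (∀ τ ∈ Icc 0 T, ∀ m : ℕ, ContDiff ℝ m (fun ξ => v ξ τ)) ∧
    (∀ i : ℕ, ContinuousOn (fun q : ℝ × ℝ => iteratedDeriv i (fun ξ => v ξ q.2) q.1)
      (univ ×ˢ Icc 0 T)) ∧
    ∀ i : ℕ, ∀ ξ : ℝ, ∀ τ ∈ Icc 0 T, Tendsto (fun n => iteratedDeriv i (fun ξ => w n ξ τ) ξ) atTop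
      (𝓝 (iteratedDeriv i (fun ξ => v ξ τ) ξ))

/-- The fixed point. From `S_W0`, `S_CVB`, `S_NB`, `S_NL`, `S_LIM`. Iterate `w⁰ = w0`,
`wⁿ⁺¹ = w0 + Nl wⁿ`; for small `ε` all `wⁿ` satisfy `Cs 0 ≤ 2 ε Cs0`, `K0 Cs 0 ≤ 1/4`, so that for every
`i`, by induction on `i`, the constants `Cs i` are bounded uniformly in `n`, and
`‖wⁿ⁺¹ - wⁿ‖ ≤ 2⁻ⁿ D (ex/(1+|ξ|)^(p+1))`. Pass to the limit with `S_NL` (`‖wⁿ - w‖ ≤ 2^(1-n) D ex/..`). All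
`wⁿ` are hermitian because `κ` is real and even (`cv w w (-ξ) = conj (cv w w ξ)` by `η → -η`). -/
def S_FIX : Prop := ∀ (T : ℝ) (p : ℕ) (κ : ℝ → ℝ → ℝ → ℝ), 0 < T → KBd T κ →
  ∃ (ε : ℝ) (w : ℝ → ℝ → ℂ) (Cs : ℕ → ℝ), 0 < ε ∧ Adm T p w Cs ∧
  (∀ ξ : ℝ, ∀ τ ∈ Icc 0 T, w ξ τ = w0 p ε ξ τ + Nl T κ w ξ τ) ∧
  (∀ ξ : ℝ, ∀ τ ∈ Icc 0 T, w (-ξ) τ = (starRingEnd ℂ) (w ξ τ)) ∧
  ∃ C : ℝ, ∀ ξ : ℝ, ∀ τ ∈ Icc 0 T, ‖Nl T κ w ξ τ‖ ≤ C * (ex ξ τ / (1 + |ξ|) ^ (p + 2))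

/-! ### Time derivatives -/

/-- The differential equation in time. From `S_CVB`, `S_CVD`, `S_TI`. With `g s = cv w w ξ s` (continuous on
`[0,T]`): `Nl = ξ² ((1-chi)/(2 lam) (e^{-lam τ} ∫_0^τ e^{lam s} g + e^{lam τ} ∫_τ^T e^{-lam s} g)
- chi (sh τ ∫_0^τ ch s g - ch τ ∫_0^τ sh s g))` (the addition formula), fundamental theorem of calculus;
`lam² = mu` where `1 - chi ≠ 0`. The bound: `‖w1‖ ≤ lam ‖w0‖ + (1+|ξ|)² (K ex/(1+|ξ|)^(p+2))`. -/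
def S_ODE : Prop := ∀ sh ch : ℝ → ℝ → ℝ, IsSh sh ch → ∀ (T : ℝ) (p : ℕ) (ε : ℝ) (w : ℝ → ℝ → ℂ)
  (Cs : ℕ → ℝ), 0 < T → Adm T p w Cs →
  (∀ ξ : ℝ, ∀ τ ∈ Icc 0 T, w ξ τ = w0 p ε ξ τ + Nl T (kap sh) w ξ τ) →
  ∃ w1 : ℝ → ℝ → ℂ, ContinuousOn (fun q : ℝ × ℝ => w1 q.1 q.2) (univ ×ˢ Icc 0 T) ∧
  (∃ C : ℝ, ∀ ξ : ℝ, ∀ τ ∈ Icc 0 T, ‖w1 ξ τ‖ ≤ C * (1 + |ξ|) ^ 2 * (ex ξ τ / (1 + |ξ|) ^ (p + 1))) ∧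
  (∀ ξ : ℝ, ∀ τ ∈ Ioo 0 T, HasDerivAt (fun τ => w ξ τ) (w1 ξ τ) τ) ∧
  ∀ ξ : ℝ, ∀ τ ∈ Ioo 0 T, HasDerivAt (fun τ => w1 ξ τ)
    ((mu ξ : ℂ) * w ξ τ - (ξ : ℂ) ^ 2 * cv w w ξ τ) τ

/-- Convolutions of good functions are good, and the product rule in time. Proof:
`∫ exp(-c|η|) exp(-c|ξ-η|) dη ≤ C exp(-(c/2)|ξ|)`; dominated convergence. -/
def S_CG : Prop := ∀ (T : ℝ) (G H : ℝ → ℝ → ℂ), 0 < T → Good T G → Good T H → Good T (cv G H) ∧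
  ∀ G1 H1 : ℝ → ℝ → ℂ, Good T G1 → Good T H1 →
    (∀ ξ : ℝ, ∀ τ ∈ Ioo 0 T, HasDerivAt (fun τ => G ξ τ) (G1 ξ τ) τ) →
    (∀ ξ : ℝ, ∀ τ ∈ Ioo 0 T, HasDerivAt (fun τ => H ξ τ) (H1 ξ τ) τ) →
    ∀ ξ : ℝ, ∀ τ ∈ Ioo 0 T, HasDerivAt (fun τ => cv G H ξ τ) (cv G1 H ξ τ + cv G H1 ξ τ) τ

/-- All time derivatives. From `S_CG`: define `W (j+2)` by the recursion of `Tower` (strong recursion),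
prove goodness and the derivative property by induction (`Nat.choose_succ_succ`). -/
def S_TS : Prop := ∀ (T : ℝ) (w w1 : ℝ → ℝ → ℂ), 0 < T → Good T w → Good T w1 →
  (∀ ξ : ℝ, ∀ τ ∈ Ioo 0 T, HasDerivAt (fun τ => w ξ τ) (w1 ξ τ) τ) →
  (∀ ξ : ℝ, ∀ τ ∈ Ioo 0 T, HasDerivAt (fun τ => w1 ξ τ)
    ((mu ξ : ℂ) * w ξ τ - (ξ : ℂ) ^ 2 * cv w w ξ τ) τ) →
  ∃ W : ℕ → ℝ → ℝ → ℂ, W 0 = w ∧ W 1 = w1 ∧ Tower T W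

/-! ### The function `U` -/

/-- Derivatives and smoothness of `U`. Proof: differentiation under the integral (`Good` gives
exponential decay, also of `(1+|ξ|)^i W j`, locally uniformly in `τ`); all `UU i j` are continuous in
`(x,τ)` and have both partial derivatives, of the same form; `ContDiffOn` by induction on `n`. -/
def S_JS : Prop := ∀ (T : ℝ) (W : ℕ → ℝ → ℝ → ℂ), 0 < T → (∀ j, Good T (W j)) →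
  (∀ j : ℕ, ∀ ξ : ℝ, ∀ τ ∈ Ioo 0 T, HasDerivAt (fun τ => W j ξ τ) (W (j + 1) ξ τ) τ) →
  (∀ i j : ℕ, ∀ x : ℝ, ∀ τ ∈ Ioo 0 T, HasDerivAt (fun x => UU W i j x τ) (UU W (i + 1) j x τ) x) ∧
  (∀ i j : ℕ, ∀ x : ℝ, ∀ τ ∈ Ioo 0 T, HasDerivAt (fun τ => UU W i j x τ) (UU W i (j + 1) x τ) τ) ∧
  ∀ i j n : ℕ, ContDiffOn ℝ n (fun q : ℝ × ℝ => UU W i j q.1 q.2) (univ ×ˢ Ioo 0 T)

/-- The equation. Proof: `W 2 = mu W 0 - ξ² cv (W 0) (W 0)`. `mu ξ = (iξ)⁴ + (iξ)²`, `-ξ² = (iξ)²`, and with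
`ξ = η + ζ`, `(iξ)² = (iη)² + 2 (iη)(iζ) + (iζ)²`; Fubini gives
`∫ (iξ)² cv w w e^{ixξ} = 2 U₀ U₂ + 2 U₁²`, `U_i = ∫ (iξ)^i w e^{ixξ}`, which is real as `w` is hermitian. -/
def S_PDE : Prop := ∀ (T : ℝ) (W : ℕ → ℝ → ℝ → ℂ), 0 < T → Tower T W →
  (∀ ξ : ℝ, ∀ τ ∈ Ioo 0 T, W 0 (-ξ) τ = (starRingEnd ℂ) (W 0 ξ τ)) →
  ∀ x : ℝ, ∀ τ ∈ Ioo 0 T, UU W 0 2 x τ = UU W 2 0 x τ +
    (2 * UU W 0 0 x τ * UU W 2 0 x τ + 2 * UU W 1 0 x τ ^ 2) + UU W 4 0 x τ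

/-- Decay in `x`. Proof: integrate by parts `N` times in `ξ`: `x^N ∫ h e^{ixξ} = i^N ∫ ∂^N h e^{ixξ}`,
`h = (iξ)^i w(ξ,τ)`, whose derivatives are at most `C (1+|ξ|)^i exp(-a|ξ|/16)` for `τ ≥ a`. -/
def S_DEC : Prop := ∀ (T : ℝ) (p : ℕ) (w : ℝ → ℝ → ℂ) (Cs : ℕ → ℝ), 0 < T → Adm T p w Cs →
  ∀ a : ℝ, 0 < a → ∀ i N : ℕ, ∃ C : ℝ, ∀ x : ℝ, ∀ τ ∈ Icc a T, (1 + |x|) ^ N *
    |(∫ ξ : ℝ, (Complex.I * ξ) ^ i * w ξ τ * Complex.exp (Complex.I * x * ξ)).re| ≤ C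

/-- Bounds of the time derivatives up to `τ = 0`. Induction with the recursion of `Tower`: for
`2 (j+2) ≤ p`, `‖cv (W i) (W (j-i))‖ ≤ C ∫ (1+|η|)^(-(p+1-2i)) (1+|ξ-η|)^(-(p+1-2(j-i))) dη ≤
C' (1+|ξ|)^(-(p+1-2j))`, as both exponents are at least `p+1-2j ≥ 5`. -/
def S_WJ : Prop := ∀ (T : ℝ) (p : ℕ) (W : ℕ → ℝ → ℝ → ℂ), 0 < T → Tower T W →
  (∃ C : ℝ, ∀ ξ : ℝ, ∀ τ ∈ Ioo 0 T, ‖W 0 ξ τ‖ * (1 + |ξ|) ^ (p + 1) ≤ C) →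
  (∃ C : ℝ, ∀ ξ : ℝ, ∀ τ ∈ Ioo 0 T, ‖W 1 ξ τ‖ * (1 + |ξ|) ^ (p + 1) ≤ C * (1 + |ξ|) ^ 2) →
  ∀ j : ℕ, 2 * j ≤ p → ∃ C : ℝ, ∀ ξ : ℝ, ∀ τ ∈ Ioo 0 T,
    ‖W j ξ τ‖ * (1 + |ξ|) ^ (p + 1) ≤ C * (1 + |ξ|) ^ (2 * j)

/-- Bounded derivatives. From `S_WJ`: `|ξ|^i (1+|ξ|)^(2j-p-1) ≤ (1+|ξ|)⁻²`. -/
def S_LB : Prop := ∀ (T : ℝ) (p : ℕ) (W : ℕ → ℝ → ℝ → ℂ), 0 < T → Tower T W →
  (∃ C : ℝ, ∀ ξ : ℝ, ∀ τ ∈ Ioo 0 T, ‖W 0 ξ τ‖ * (1 + |ξ|) ^ (p + 1) ≤ C) →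
  (∃ C : ℝ, ∀ ξ : ℝ, ∀ τ ∈ Ioo 0 T, ‖W 1 ξ τ‖ * (1 + |ξ|) ^ (p + 1) ≤ C * (1 + |ξ|) ^ 2) →
  ∀ i j : ℕ, i + 2 * j + 1 ≤ p → ∃ C : ℝ, ∀ x : ℝ, ∀ τ ∈ Ioo 0 T, |UU W i j x τ| ≤ C

/-- The unbounded derivative. Proof: `(iξ)^p w0 e^{ixξ} = 2ε (1-chi) e^{-lam τ} cos ξ |ξ|⁻¹ e^{ixξ}` for `ξ ≠ 0`, real
part at `x = ±1`: `2ε (1-chi) e^{-lam τ} cos² ξ/|ξ| ≥ 0`, whose integral tends to infinity as `τ → 0+`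
(it is at least the integral over `3 ≤ ξ ≤ R` for every `R`, and `∫_3^R cos² ξ/ξ dξ → ∞` as `R → ∞`,
`cos² ξ = (1 + cos 2ξ)/2`, or intervals around `kπ`). The part of `n` is bounded by `C ∫ (1+|ξ|)⁻²`. -/
def S_UNB : Prop := ∀ (T : ℝ) (p : ℕ) (ε : ℝ) (w n : ℝ → ℝ → ℂ), 0 < T → 0 < ε →
  ContinuousOn (fun q : ℝ × ℝ => w q.1 q.2) (univ ×ˢ Icc 0 T) →
  (∀ ξ : ℝ, ∀ τ ∈ Ioo 0 T, w ξ τ = w0 p ε ξ τ + n ξ τ) →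
  (∃ C : ℝ, ∀ ξ : ℝ, ∀ τ ∈ Ioo 0 T, ‖n ξ τ‖ ≤ C * (ex ξ τ / (1 + |ξ|) ^ (p + 2))) →
  ∀ x : ℝ, (x = 1 ∨ x = -1) → Tendsto (fun τ => (∫ ξ : ℝ, (Complex.I * ξ) ^ p * w ξ τ *
    Complex.exp (Complex.I * x * ξ)).re) (𝓝[>] 0) atTop

/-- `w` is good. (From the bound `Cs 0 (ex ξ τ)`.) -/
def S_GD : Prop := (∀ (T : ℝ) (p : ℕ) (w : ℝ → ℝ → ℂ) (Cs : ℕ → ℝ), 0 < T → Adm T p w Cs →
    Good T w) ∧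
  ∀ (T : ℝ) (p : ℕ) (w : ℝ → ℝ → ℂ) (C : ℝ), 0 < T →
    ContinuousOn (fun q : ℝ × ℝ => w q.1 q.2) (univ ×ˢ Icc 0 T) →
    (∀ ξ : ℝ, ∀ τ ∈ Icc 0 T, ‖w ξ τ‖ ≤ C * (1 + |ξ|) ^ 2 * (ex ξ τ / (1 + |ξ|) ^ (p + 1))) → Good T w

/-- Everything together, in terms of `t = T - τ` (apply the above with `T + 1` in place of `T`). -/
def S_MAIN : Prop := ∀ (T : ℝ) (p : ℕ), 0 < T → ∃ u : ℝ → ℝ → ℝ,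
  (∀ n : ℕ, ContDiffOn ℝ n (fun q : ℝ × ℝ => u q.1 q.2) (univ ×ˢ Ioo (-1) T)) ∧
  (∀ x : ℝ, ∀ t ∈ Ioo (-1) T, iteratedDeriv 2 (fun t => u x t) t =
    iteratedDeriv 2 (fun x => u x t) x + iteratedDeriv 2 (fun x => u x t ^ 2) x +
      iteratedDeriv 4 (fun x => u x t) x) ∧
  (∀ (N : ℕ) (τ : ℝ), τ < T → ∃ C : ℝ, ∀ x : ℝ, ∀ t ∈ Icc 0 τ, ∀ i : ℕ, i ≤ N →
    (1 + |x|) ^ N * |iteratedDeriv i (fun x => u x t) x| ≤ C) ∧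
  (∀ i j : ℕ, i + 2 * j < p → ∃ C : ℝ, ∀ x : ℝ, ∀ t ∈ Ico 0 T,
    |iteratedDeriv i (fun x => iteratedDeriv j (fun t => u x t) t) x| ≤ C) ∧
  ∀ x : ℝ, (x = 1 ∨ x = -1) →
    Tendsto (fun t => iteratedDeriv p (fun x => u x t) x) (𝓝[<] T) atTop

end Pool.Agent.Q82.BB
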