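import Pool.Agent.Q109.BB_SH
import Pool.Agent.Q129.BB_KB
import Pool.Agent.Q123.BB_W0
import Pool.Agent.Q214.BB.Cvb
import Pool.Agent.Q123.BB_CVD
import Pool.Agent.Q109.BB_TI
import Pool.Agent.Q194.BB_NB
import Pool.Agent.Q187.BB_NL
import Pool.Agent.Q208.BB_LIM
import Pool.Agent.Q188.BB_FIX
import Pool.Agent.Q252.BB_ODE
import Pool.Agent.Q252.BB_CG
import Pool.Agent.Q217.BB_TS
import Pool.Agent.Q259.BB_JS
import Pool.Agent.Q129.BB_PDE
import Pool.Agent.Q154.BB_DEC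
import Pool.Agent.Q79.BB_WJ
import Pool.Agent.Q65.BB_LB
import Pool.Agent.Q65.BB_GD
import Pool.Agent.Q231.BB.UNB
import Pool.Agent.Q40.BB_MAIN

/-! Assembly of project BB. -/

set_option autoImplicit false

namespace Pool.Agent.Q82.BB

theorem main_all : S_MAIN :=
  main1 sh1 kb
    (fix1 w01 Pool.Agent.Q214.BB.cvb (nb Pool.Agent.Q214.BB.cvb cvd ti)
      (nl Pool.Agent.Q214.BB.cvb ti) lim1)
    (ode Pool.Agent.Q214.BB.cvb cvd ti) gd (ts cg) js pde dec (lb wj) Pool.Agent.Q231.BB.UNB.unb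

end Pool.Agent.Q82.BB
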